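import Mathlib

set_option autoImplicit false

namespace Pool.Agent.Q30.GR

/-- the last event -/
theorem exists_last (ev : ℕ → Prop) (s n1 : ℕ) (h : s ≤ n1) :
    ∃ n0, s ≤ n0 ∧ n0 ≤ n1 ∧ (n0 = s ∨ ev n0) ∧ ∀ n, n0 < n → n ≤ n1 → ¬ ev n := by
  classical
  induction n1, h using Nat.le_induction with
  | base => exact ⟨s, le_rfl, le_rfl, Or.inl rfl, fun n h1 h2 => by omega⟩
  | succ k hk ih =>
    by_cases hev : ev (k+1)
    · exact ⟨k+1, by omega, le_rfl, Or.inr hev, fun n h1 h2 => by omega⟩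
    · obtain ⟨n0, h1, h2, h3, h4⟩ := ih
      refine ⟨n0, h1, by omega, h3, fun n ha hb => ?_⟩
      rcases Nat.lt_or_ge k n with h | h
      · have : n = k + 1 := by omega
        rw [this]; exact hev
      · exact h4 n ha h

/-- abstract chain lemma -/
theorem chain (ev : ℕ → Prop) (Φ : ℕ → ℕ) (L s g : ℕ) 
    (hev : ∀ n0 n1, s ≤ n0 → n0 < n1 → n1 ≤ g → (∀ n, n0 < n → n < n1 → ¬ ev n) → ev n1 →
      L * (n1 - n0) + Φ n1 ≤ Φ n0) :
    ∀ n1, s ≤ n1 → n1 ≤ g → (n1 = s ∨ ev n1) → L * (n1 - s) + Φ n1 ≤ Φ s := by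
  intro n1
  induction n1 using Nat.strong_induction_on with
  | _ n1 ih =>
    intro h1 h2 h3
    rcases Nat.eq_or_lt_of_le h1 with h | h
    · subst h; simp
    · have he : ev n1 := by
        rcases h3 with h3 | h3
        · omega
        · exact h3
      obtain ⟨n0, a1, a2, a3, a4⟩ := exists_last ev s (n1 - 1) (by omega)
      have b1 := ih n0 (by omega) a1 (by omega) a3
      have b2 := hev n0 n1 a1 (by omega) h2 (fun n x y => a4 n x (by omega)) he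
      have : L * (n1 - s) = L * (n1 - n0) + L * (n0 - s) := by
        rw [← Nat.mul_add]; congr 1; omega
      omega

/-- main abstract statement -/
theorem main (ev : ℕ → Prop) (Φ : ℕ → ℕ) (L s g : ℕ) (hsg : s ≤ g)
    (hev : ∀ n0 n1, s ≤ n0 → n0 < n1 → n1 ≤ g → (∀ n, n0 < n → n < n1 → ¬ ev n) → ev n1 →
      L * (n1 - n0) + Φ n1 ≤ Φ n0) :
    ∃ n0, s ≤ n0 ∧ n0 ≤ g ∧ (∀ n, n0 < n → n ≤ g → ¬ ev n) ∧ L * (n0 - s) + Φ n0 ≤ Φ s := by
  obtain ⟨n0, a1, a2, a3, a4⟩ := exists_last ev s g hsg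
  exact ⟨n0, a1, a2, a4, chain ev Φ L s g hev n0 a1 a2 a3⟩

/-- every residue class meets every window -/
theorem window (M : ℕ) (hM : 0 < M) (r n0 : ℕ) : ∃ n, n0 < n ∧ n ≤ n0 + M ∧ n ≡ r [MOD M] := by
  refine ⟨n0 + 1 + ((r + M * (n0 + 1) - (n0 + 1)) % M), by omega, ?_, ?_⟩
  · have := Nat.mod_lt (r + M * (n0 + 1) - (n0 + 1)) hM
    omega
  · have h1 : n0 + 1 ≤ M * (n0 + 1) := Nat.le_mul_of_pos_left _ hM
    have h2 : n0 + 1 + ((r + M * (n0 + 1) - (n0 + 1)) % M) ≡ 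
        n0 + 1 + (r + M * (n0 + 1) - (n0 + 1)) [MOD M] :=
      Nat.ModEq.add_left _ (Nat.mod_modEq _ _)
    have h3 : n0 + 1 + (r + M * (n0 + 1) - (n0 + 1)) = r + M * (n0 + 1) := by omega
    rw [h3] at h2
    refine h2.trans ?_
    simp [Nat.ModEq]

/-- a run without events -/
theorem quiet (a d : ℕ → ℕ) (s g : ℕ) (h1 : ∀ n, s < n → n ≤ g → a n + d n = a (n-1))
    (n0 n1 : ℕ) (hs : s ≤ n0) (hg : n1 ≤ g) (hq : ∀ n, n0 < n → n ≤ n1 → d n = 1) :
    ∀ n, n0 ≤ n → n ≤ n1 → a n + n = a n0 + n0 := by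
  intro n hn
  induction n, hn using Nat.le_induction with
  | base => intro _; rfl
  | succ k hk ih =>
    intro hk1
    have := ih (by omega)
    have h2 := h1 (k+1) (by omega) (by omega)
    have h3 := hq (k+1) (by omega) hk1
    simp only [Nat.add_sub_cancel] at h2
    omega

end Pool.Agent.Q30.GR
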