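import Pool.Agent.Q30.GR.Base

set_option autoImplicit false

namespace Pool.Agent.Q30.GR

/-- integer recursions as natural recursions -/
theorem conv (a S : ℕ → ℤ) (s g : ℕ) (h0 : 0 < a s) 
    (hrec : ∀ n, s < n → a n = a (n-1) - (Int.gcd (a (n-1)) (S n) : ℕ))
    (hg : a g = 0) (hsg : s ≤ g) (hmin : ∀ n, s ≤ n → n < g → a n ≠ 0) :
    (∀ n, s ≤ n → n < g → 0 < a n) ∧ 
    (∀ n, s < n → n ≤ g → (a n).toNat + Nat.gcd (a (n-1)).toNat (S n).natAbs = (a (n-1)).toNat) := by
  have hpos : ∀ n, s ≤ n → n < g → 0 < a n := by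
    intro n hn
    induction n, hn using Nat.le_induction with
    | base => intro _; exact h0
    | succ k hk ih =>
      intro hkg
      have h1 := ih (by omega)
      have h2 := hrec (k+1) (by omega)
      rw [Nat.add_sub_cancel] at h2
      have h3 : (Int.gcd (a k) (S (k+1)) : ℤ) ≤ a k :=
        Int.le_of_dvd h1 (Int.gcd_dvd_left ..)
      have h4 := hmin (k+1) (by omega) hkg
      omega
  refine ⟨hpos, fun n hn hng => ?_⟩
  have h1 := hpos (n-1) (by omega) (by omega)
  have h2 := hrec n hn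
  have h3 : (Int.gcd (a (n-1)) (S n) : ℤ) ≤ a (n-1) :=
    Int.le_of_dvd h1 (Int.gcd_dvd_left ..)
  have h5 : Nat.gcd (a (n-1)).toNat (S n).natAbs = Int.gcd (a (n-1)) (S n) := by
    rw [Int.gcd_def]
    congr 1
    omega
  rw [h5]
  omega

end Pool.Agent.Q30.GR
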