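import Pool.Agent.Q30.GR.Base

set_option autoImplicit false

namespace Pool.Agent.Q30.GR

theorem gold (N : ℕ) (hN : 3 ≤ N) (a : ℕ → ℕ) (g : ℕ) (hg : 2 ≤ g) (ha : a 1 = N - 2)
    (hrec : ∀ n, 1 < n → n ≤ g → 
      a n + Nat.gcd (a (n-1)) (if Even n then n else 2 * N - n) = a (n-1))
    (hpos : ∀ n, 1 < n → n ≤ g → 0 < a (n-1)) (hz : a g = 0) :
    g ≤ N - 1 ∧ 
    (∀ p, p.Prime → (p ∣ (g + 1) ∨ p ∣ (2 * N - g - 1)) → 4 * g + 2 < 2 * p + 3 * N) ∧
    (∀ n, 3 * (N - 1 - g) + 1 < n → n ≤ g → 
      Nat.gcd (a (n-1)) (if Even n then n else 2 * N - n) = 1) := by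
  classical
  set F : ℕ → ℕ := fun n => if Even n then n else 2 * N - n with hF
  set d : ℕ → ℕ := fun n => Nat.gcd (a (n-1)) (F n) with hd
  have hd1 : ∀ n, 1 < n → n ≤ g → 1 ≤ d n := fun n h1 h2 =>
    Nat.gcd_pos_of_pos_left _ (hpos n h1 h2)
  have hmono : ∀ n, 1 ≤ n → n ≤ g → a n + n ≤ N - 1 := by
    intro n hn
    induction n, hn using Nat.le_induction with
    | base => intro _; omega
    | succ k hk ih =>
      intro hkg
      have h1 := ih (by omega)
      have h2 := hrec (k+1) (by omega) hkg
      have h3 := hd1 (k+1) (by omega) hkg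
      have h4 : a (k+1) + d (k+1) = a (k+1-1) := h2
      rw [Nat.add_sub_cancel] at h4
      omega
  have hgN : g ≤ N - 1 := by
    have := hmono g (by omega) le_rfl
    omega
  have key := main (fun n => 1 < d n) (fun n => 3 * (a n + n + 1)) 1 1 g (by omega) (by
    intro n0 n1 hs h01 h1g hq he
    have hq1 : ∀ n, n0 < n → n ≤ n1 - 1 → d n = 1 := fun n x y => by
      have := hq n x (by omega)
      have := hd1 n (by omega) (by omega)
      omega
    have hconst := quiet a d 1 g hrec n0 (n1-1) hs (by omega) hq1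
    have hlast : a (n1 - 1) + n1 = a n0 + n0 + 1 := by
      have := hconst (n1-1) (by omega) le_rfl
      omega
    set G := a n0 + n0 + 1 with hG
    have hr1 : a n1 + d n1 = a (n1-1) := hrec n1 (by omega) h1g
    have hDa : d n1 ∣ a (n1-1) := Nat.gcd_dvd_left _ _
    have hDF : d n1 ∣ F n1 := Nat.gcd_dvd_right _ _
    have hpp : (d n1).minFac.Prime := Nat.minFac_prime (by omega)
    have hpD : (d n1).minFac ∣ d n1 := Nat.minFac_dvd _
    have hple : (d n1).minFac ≤ d n1 := Nat.minFac_le (by omega)
    set p := (d n1).minFac with hp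
    -- the period
    obtain ⟨M, hMe, hMp, hM3⟩ : ∃ M, Even M ∧ p ∣ M ∧ M ≤ 3 * (d n1 - 1) ∧ 0 < M := by
      rcases Nat.eq_or_lt_of_le hpp.two_le with h | h
      · exact ⟨2, even_two, by rw [← h], by omega, by omega⟩
      · exact ⟨2 * p, even_two_mul p, Dvd.intro_left 2 rfl, by omega, by omega⟩
    have hw : n1 - n0 ≤ M := by
      by_contra hcon
      have hn : d (n1 - M) = 1 := hq1 _ (by omega) (by omega)
      have h1 : a (n1 - M - 1) + (n1 - M) = G := by
        have := hconst (n1-M-1) (by omega) (by omega)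
        omega
      have h2 : p ∣ a (n1 - M - 1) := by
        have : a (n1 - M - 1) = a (n1-1) + M := by omega
        rw [this]
        exact (hpD.trans hDa).add hMp
      have h3 : p ∣ F (n1 - M) := by
        have h4 : p ∣ F n1 := hpD.trans hDF
        have hpar : Even (n1 - M) ↔ Even n1 := by
          rw [Nat.even_sub (by omega)]; tauto
        simp only [hF] at h4 ⊢
        by_cases he1 : Even n1
        · rw [if_pos he1] at h4
          rw [if_pos (hpar.mpr he1)]
          exact Nat.dvd_sub h4 hMp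
        · rw [if_neg he1] at h4
          rw [if_neg (fun h => he1 (hpar.mp h))]
          have : 2 * N - (n1 - M) = (2 * N - n1) + M := by omega
          rw [this]
          exact h4.add hMp
      have h6 : p ∣ d (n1 - M) := Nat.dvd_gcd h2 h3
      rw [hn] at h6
      exact hpp.one_lt.ne' (Nat.dvd_one.mp h6)
    omega)
  obtain ⟨n0, a1, a2, a3, a4⟩ := key
  have hq1 : ∀ n, n0 < n → n ≤ g → d n = 1 := fun n x y => by
    have := a3 n x y
    have := hd1 n (by omega) (by omega)
    omega
  have hconst := quiet a d 1 g hrec n0 g a1 le_rfl hq1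
  have hg0 := hconst g (by omega) le_rfl
  have h7 : a n0 + n0 = g := by omega
  have h1n : ∀ n, n0 < n → n ≤ g → a (n-1) + n = g + 1 := by
    intro n x y
    have := hconst (n-1) (by omega) (by omega)
    omega
  have hno : ∀ n q, n0 < n → n ≤ g → q.Prime → q ∣ a (n-1) → q ∣ F n → False := by
    intro n q x y hq u v
    have h6 : q ∣ d n := Nat.dvd_gcd u v
    rw [hq1 n x y] at h6
    exact hq.one_lt.ne' (Nat.dvd_one.mp h6)
  have hdvd : ∀ n q, n0 < n → n ≤ g → n ≡ g + 1 [MOD q] → q ∣ a (n-1) := by
    intro n q x y w3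
    rw [← h1n n x y] at w3
    have h4 : 0 + n ≡ a (n-1) + n [MOD q] := by simpa using w3
    exact (Nat.modEq_zero_iff_dvd).mp (Nat.ModEq.add_right_cancel' n h4).symm
  refine ⟨hgN, ?_, ?_⟩
  · intro p hp hdv
    have hgl : g < n0 + 2 * p := by
      by_contra hcon
      have hp2 := hp.two_le
      rcases hdv with hdv | hdv
      · obtain ⟨n, w1, w2, w3⟩ := window (2 * p) (by omega) 0 n0
        have w4 : 2 * p ∣ n := (Nat.modEq_zero_iff_dvd).mp w3
        have w5 : p ∣ n := (Dvd.intro_left 2 rfl).trans w4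
        have w6 : Even n := even_iff_two_dvd.mpr ((Dvd.intro p rfl).trans w4)
        refine hno n p w1 (by omega) hp (hdvd n p w1 (by omega) ?_) ?_
        · exact ((Nat.modEq_zero_iff_dvd).mpr w5).trans ((Nat.modEq_zero_iff_dvd).mpr hdv).symm
        · simp only [hF]; rw [if_pos w6]; exact w5
      · rcases Nat.even_or_odd (g+1) with hev | hodd
        · obtain ⟨n, w1, w2, w3⟩ := window 2 (by omega) 0 n0
          have w4 : 2 ∣ n := (Nat.modEq_zero_iff_dvd).mp w3
          refine hno n 2 w1 (by omega) Nat.prime_two (hdvd n 2 w1 (by omega) ?_) ?_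
          · exact w3.trans ((Nat.modEq_zero_iff_dvd).mpr hev.two_dvd).symm
          · simp only [hF]; rw [if_pos (even_iff_two_dvd.mpr w4)]; exact w4
        · obtain ⟨n, w1, w2, w3⟩ := window (2 * p) (by omega) (g+1) n0
          have w4 : n ≡ g + 1 [MOD 2] := w3.of_dvd (Dvd.intro p rfl)
          have w5 : n ≡ g + 1 [MOD p] := w3.of_dvd (Dvd.intro_left 2 rfl)
          have w6 : ¬ Even n := by
            intro h
            rw [Nat.even_iff] at h
            rw [Nat.odd_iff] at hodd
            unfold Nat.ModEq at w4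
            omega
          have w7 : p ∣ a (n-1) := hdvd n p w1 (by omega) w5
          refine hno n p w1 (by omega) hp w7 ?_
          simp only [hF]; rw [if_neg w6]
          have h8 := h1n n w1 (by omega)
          have : 2 * N - n = (2 * N - g - 1) + a (n-1) := by omega
          rw [this]
          exact hdv.add w7
    omega
  · intro n x y
    exact hq1 n (by omega) y

end Pool.Agent.Q30.GR
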