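import Mathlib

set_option autoImplicit false

namespace Pool.Agent.Q30.GR.Gold

/-- the sequence `a_1, a_2, ...` of the problem -/
def seq (N : ℕ) : ℕ → ℤ
  | 0 => 0
  | 1 => (N : ℤ) - 2
  | (n + 2) => seq N (n + 1) -
      ((Int.gcd (seq N (n + 1)) ((N : ℤ) - (-1) ^ (n + 2) * ((N : ℤ) - ((n + 2 : ℕ) : ℤ))) : ℕ) : ℤ)

/-- the gcd subtracted in step `n` (for `n ≥ 2`) -/
def step (N n : ℕ) : ℕ := Int.gcd (seq N (n - 1)) ((N : ℤ) - (-1) ^ n * ((N : ℤ) - (n : ℤ)))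

/-- the index `g_N` -/
noncomputable def idx (N : ℕ) : ℕ := sInf {n : ℕ | 2 ≤ n ∧ seq N n = 0}

end Pool.Agent.Q30.GR.Gold
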