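import Pool.Agent.Q30.GR.GoldDefs
import Pool.Agent.Q30.GR.Conv
import Pool.Agent.Q30.GR.Gold

set_option autoImplicit false

namespace Pool.Agent.Q30.GR.Gold

theorem seq_rec (N n : ℕ) (hn : 1 < n) : seq N n = seq N (n-1) - (step N n : ℤ) := by
  obtain ⟨k, rfl⟩ : ∃ k, n = k + 2 := ⟨n - 2, by omega⟩
  rw [seq]
  rfl

theorem exists_zero (N : ℕ) (hN : 3 ≤ N) : ∃ n, 2 ≤ n ∧ seq N n = 0 := by
  by_contra hcon
  push Not at hcon
  have key : ∀ n, 1 ≤ n → 0 < seq N n ∧ seq N n + n ≤ N - 1 := by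
    intro n hn
    induction n, hn using Nat.le_induction with
    | base => 
      have : seq N 1 = (N:ℤ) - 2 := by rw [seq]
      rw [this]; push_cast; omega
    | succ k hk ih =>
      have h1 := seq_rec N (k+1) (by omega)
      rw [Nat.add_sub_cancel] at h1
      have h2 : (step N (k+1) : ℤ) ≤ seq N k := by
        unfold step
        rw [Nat.add_sub_cancel]
        exact Int.le_of_dvd ih.1 (Int.gcd_dvd_left ..)
      have h3 : 0 < step N (k+1) := by
        unfold step
        rw [Nat.add_sub_cancel]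
        exact Int.gcd_pos_of_ne_zero_left _ ih.1.ne'
      have h4 := hcon (k+1) (by omega)
      push_cast
      omega
  have := key (N+1) (by omega)
  push_cast at this
  omega

theorem second (N n : ℕ) (hn : n ≤ 2 * N) : 
    ((N : ℤ) - (-1) ^ n * ((N : ℤ) - (n : ℤ))).natAbs = if Even n then n else 2 * N - n := by
  rcases Nat.even_or_odd n with h | h
  · rw [if_pos h, h.neg_one_pow]
    have : (N:ℤ) - 1 * ((N:ℤ) - n) = n := by ring
    rw [this]; simp
  · rw [if_neg (Nat.not_even_iff_odd.mpr h), h.neg_one_pow]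
    have : (N:ℤ) - -1 * ((N:ℤ) - n) = ((2 * N - n : ℕ) : ℤ) := by
      push_cast [hn]; ring
    rw [this]; simp only [Int.natAbs_natCast]

theorem all (N : ℕ) (hN : 3 ≤ N) : 
    (2 ≤ idx N ∧ seq N (idx N) = 0) ∧ idx N ≤ N - 1 ∧
    (∀ n, 3 * (N - 1 - idx N) + 1 < n → n ≤ idx N → step N n = 1) ∧
    (∀ p : ℕ, p.Prime → (p ∣ (idx N + 1) ∨ p ∣ (2 * N - idx N - 1)) → 
      4 * idx N + 2 < 2 * p + 3 * N) := by
  classical
  have hmem : 2 ≤ idx N ∧ seq N (idx N) = 0 := Nat.sInf_mem (exists_zero N hN)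
  set g := idx N with hg
  have hmin : ∀ n, 1 ≤ n → n < g → seq N n ≠ 0 := by
    intro n h1 h2 h3
    rcases Nat.eq_or_lt_of_le h1 with h | h
    · rw [← h] at h3
      have : seq N 1 = (N:ℤ) - 2 := by rw [seq]
      omega
    · exact Nat.notMem_of_lt_sInf h2 ⟨h, h3⟩
  have h1 : seq N 1 = (N:ℤ) - 2 := by rw [seq]
  obtain ⟨hpos, hnat⟩ := conv (seq N) (fun n => (N : ℤ) - (-1) ^ n * ((N : ℤ) - (n : ℤ))) 1 g 
    (by rw [h1]; omega) (fun n hn => seq_rec N n hn) hmem.2 (by omega) hmin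
  have hmono : ∀ n, 1 ≤ n → n ≤ g → (seq N n).toNat + n ≤ N - 1 := by
    intro n hn
    induction n, hn using Nat.le_induction with
    | base => intro _; rw [h1]; omega
    | succ k hk ih =>
      intro hkg
      have a1 := ih (by omega)
      have a2 := hnat (k+1) (by omega) hkg
      have a3 := hpos k hk (by omega)
      have a4 : 0 < Nat.gcd (seq N (k+1-1)).toNat ((N : ℤ) - (-1) ^ (k+1) * ((N : ℤ) - ((k+1 : ℕ) : ℤ))).natAbs := 
        Nat.gcd_pos_of_pos_left _ (by rw [Nat.add_sub_cancel]; omega)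
      rw [Nat.add_sub_cancel] at a2 a4
      omega
  have hgN : g ≤ N - 1 := by
    have := hmono g (by omega) le_rfl
    omega
  have hstep : ∀ n, 1 < n → n ≤ g → 
      step N n = Nat.gcd (seq N (n-1)).toNat (if Even n then n else 2 * N - n) := by
    intro n x y
    unfold step
    rw [← second N n (by omega), Int.gcd_def]
    congr 1
    have := hpos (n-1) (by omega) (by omega)
    omega
  have key := gold N hN (fun n => (seq N n).toNat) g hmem.1 (by simp only [h1]; omega) (by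
    intro n x y
    have := hnat n x y
    rwa [second N n (by omega)] at this) (by
    intro n x y
    have := hpos (n-1) (by omega) (by omega)
    omega) (by simp only [hmem.2]; rfl)
  refine ⟨hmem, hgN, ?_, ?_⟩
  · intro n x y
    rw [hstep n (by omega) y]
    exact key.2.2 n x y
  · intro p hp hdv
    exact key.2.1 p hp hdv

theorem prime_of (N : ℕ) (hN : 3 ≤ N) (h : 3 * (N:ℝ) / 4 + √(N/2) ≤ idx N) : 
    (idx N + 1).Prime ∧ (2 * N - idx N - 1).Prime := by
  obtain ⟨h1, h2, h3, h4⟩ := all N hN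
  set g := idx N with hg
  -- a number at most 2N, all of whose prime factors are large
  have main : ∀ m : ℕ, 2 ≤ m → m ≤ 2 * N → (∀ p : ℕ, p.Prime → p ∣ m → 4 * g + 2 < 2 * p + 3 * N) → 
      m.Prime := by
    intro m hm hm2 hp
    by_contra hcon
    have q1 := Nat.minFac_prime (by omega : m ≠ 1)
    have q2 := hp _ q1 (Nat.minFac_dvd m)
    have q3 := Nat.minFac_sq_le_self (by omega : 0 < m) hcon
    have q4 : ((m.minFac : ℝ))^2 ≤ 2 * N := by
      have : m.minFac^2 ≤ 2 * N := le_trans q3 hm2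
      exact_mod_cast this
    have q5 : (4 * (g:ℝ) + 2) < 2 * m.minFac + 3 * N := by exact_mod_cast q2
    have q6 : (0:ℝ) ≤ √(N/2) := Real.sqrt_nonneg _
    have q7 : √((N:ℝ)/2) ^2 = N/2 := Real.sq_sqrt (by positivity)
    have q8 : (m.minFac : ℝ) ≤ 2 * √(N/2) := by
      apply abs_le_of_sq_le_sq' _ (by positivity) |>.2
      rw [mul_pow, q7]; linarith
    linarith
  exact ⟨main _ (by omega) (by omega) (fun p hp hd => h4 p hp (Or.inl hd)),
    main _ (by omega) (by omega) (fun p hp hd => h4 p hp (Or.inr hd))⟩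

theorem eventually_prime (c : ℝ) (hc : 3 / 4 < c) 
    (h : ∀ᶠ N : ℕ in Filter.atTop, c * N ≤ (idx N : ℝ)) : 
    ∀ᶠ N : ℕ in Filter.atTop, (idx N + 1).Prime ∧ (2 * N - idx N - 1).Prime := by
  have h1 : ∀ᶠ N : ℕ in Filter.atTop, 1 / (c - 3/4)^2 ≤ (N:ℝ) := 
    tendsto_natCast_atTop_atTop.eventually_ge_atTop _
  filter_upwards [h, h1, Filter.eventually_ge_atTop 3] with N a1 a2 a3
  refine prime_of N a3 (le_trans ?_ a1)
  have hc' : 0 < c - 3/4 := by linarith
  have hN : (0:ℝ) < N := by positivity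
  have : √((N:ℝ)/2) ≤ (c - 3/4) * N := by
    rw [Real.sqrt_le_left (by positivity)]
    have : 1 ≤ (c-3/4)^2 * N := by
      rw [div_le_iff₀ (by positivity)] at a2
      linarith
    nlinarith
  nlinarith

end Pool.Agent.Q30.GR.Gold
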