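import Pool.Agent.Q30.GR.Zero

set_option autoImplicit false

namespace Pool.Agent.Q30.GR.Pair

/-- the sequence `a(1), a(2), ...` of the problem -/
def seq (m : ℕ) : ℕ → ℕ
  | 0 => 0
  | 1 => 4 * m ^ 2
  | (n + 2) => Int.natAbs ((seq m (n + 1) : ℤ) -
      ((Nat.gcd (seq m (n + 1)) ((n + 2) * (n + 2 + 2 * m)) : ℕ) : ℤ))

theorem seq_rec (m n : ℕ) (hn : 2 ≤ n) : seq m n = Int.natAbs ((seq m (n-1) : ℤ) -
      ((Nat.gcd (seq m (n - 1)) (n * (n + 2 * m)) : ℕ) : ℤ)) := by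
  obtain ⟨k, rfl⟩ : ∃ k, n = k + 2 := ⟨n - 2, by omega⟩
  rw [seq]
  rfl

theorem cong (m : ℕ) : ∀ M x y : ℕ, 1 ≤ x → 1 ≤ y → x ≡ y [MOD M] → 
    x * (x + 2 * m) ≡ y * (y + 2 * m) [MOD M] := 
  fun _ _ _ _ _ h => h.mul (h.add_right _)

theorem par (m : ℕ) : ∀ x : ℕ, 1 ≤ x → ¬ (2 ∣ x * (x + 2 * m) ∧ 2 ∣ (x+1) * ((x+1) + 2 * m)) := by
  rintro x _ ⟨h1, h2⟩
  rw [← even_iff_two_dvd, Nat.even_mul] at h1 h2
  rcases h1 with h1 | h1 <;> rcases h2 with h2 | h2 <;> rw [Nat.even_iff] at h1 h2 <;> omega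

theorem all (m z z' : ℕ) (h : Consec (seq m) z z') :
    z' ≤ (z + 1) * (z + 1 + 2 * m) + z + 1 ∧
    (∀ ℓ : ℕ, ℓ.Prime → ℓ ∣ (z' + 1) * (z' + 2 * m + 1) → 
      5 * z' < 2 * ℓ + 3 * ((z + 1) * (z + 1 + 2 * m)) + 5 * (z + 1) + 1) := by
  have key := consec_main (a := seq m) (F := fun n => n * (n + 2 * m)) (cong m) (par m) 
    (seq_rec m) z z' h
  refine ⟨key.1, fun ℓ hℓ hd => key.2 ℓ hℓ ?_⟩
  have : z' + 1 + 2 * m = z' + 2 * m + 1 := by ring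
  rw [this]; exact hd

theorem prime_of (m z z' : ℕ) (h : Consec (seq m) z z') (hb : 3 * (z + m + 3) ^ 2 ≤ 5 * z') :
    (z' + 1).Prime ∧ (z' + 2 * m + 1).Prime := by
  obtain ⟨h1, h2⟩ := all m z z' h
  have main : ∀ q : ℕ, 2 ≤ q → q ≤ z' + 2 * m + 1 → q ∣ (z' + 1) * (z' + 2 * m + 1) → q.Prime := by
    intro q hq1 hq2 hq3
    by_contra hcon
    have q1 := Nat.minFac_prime (by omega : q ≠ 1)
    have q2 := h2 _ q1 ((Nat.minFac_dvd q).trans hq3)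
    have q3 := Nat.minFac_sq_le_self (by omega : 0 < q) hcon
    have q4 : q.minFac ≤ z + m + 2 := by
      by_contra h5
      have : (z + m + 3)^2 ≤ q.minFac^2 := Nat.pow_le_pow_left (by omega) 2
      nlinarith
    nlinarith
  have hz : 1 ≤ z' := by have := h.2.1; omega
  exact ⟨main _ (by omega) (by omega) (Dvd.intro _ rfl), 
    main _ (by omega) (by omega) (Dvd.intro_left _ rfl)⟩

theorem zeros_infinite (m : ℕ) : {n : ℕ | 1 ≤ n ∧ seq m n = 0}.Infinite := by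
  rw [Set.infinite_iff_exists_gt]
  intro M
  obtain ⟨n, h1, h2, h3⟩ := exists_zero_ge (a := seq m) (F := fun n => n * (n + 2 * m)) (seq_rec m) (M+1)
  exact ⟨n, ⟨h2, h3⟩, by omega⟩

theorem growth (m : ℕ) (c : ℝ) (hc : 3 / 5 < c) 
    (h : ∃ K : ℕ, ∀ z z' : ℕ, K ≤ z → Consec (seq m) z z' → c * (z:ℝ)^2 ≤ z') :
    (∃ K : ℕ, ∀ n : ℕ, K ≤ n → seq m n = 0 → (n + 1).Prime ∧ (n + 2 * m + 1).Prime) ∧ 
    {p : ℕ | p.Prime ∧ (p + 2 * m).Prime}.Infinite := by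
  obtain ⟨K, hK⟩ := h
  have hA : ∃ K : ℕ, ∀ n : ℕ, K ≤ n → seq m n = 0 → (n + 1).Prime ∧ (n + 2 * m + 1).Prime := by
    have hc' : 0 < 5 * c - 3 := by linarith
    obtain ⟨K2, hK2⟩ := exists_nat_ge ((6 * ((m:ℝ)+3) + 3 * ((m:ℝ)+3)^2) / (5 * c - 3) + 1)
    obtain ⟨z0, a1, a2, a3⟩ := exists_zero_ge (a := seq m) (F := fun n => n * (n + 2 * m)) 
      (seq_rec m) (max K K2)
    refine ⟨z0 + 1, fun n hn hz => ?_⟩
    obtain ⟨z, b1, b2⟩ := prev_zero (a := seq m) z0 n a2 (by omega) a3 hz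
    refine prime_of m z n b2 ?_
    have c1 := hK z n (le_trans (le_trans (le_max_left _ _) a1) b1) b2
    have c2 : (K2:ℝ) ≤ z := by
      have : K2 ≤ z := le_trans (le_trans (le_max_right _ _) a1) b1
      exact_mod_cast this
    have c3 : (6 * ((m:ℝ)+3) + 3 * ((m:ℝ)+3)^2) / (5 * c - 3) + 1 ≤ z := le_trans hK2 c2
    have c4 : (1:ℝ) ≤ z := by
      have : 0 ≤ (6 * ((m:ℝ)+3) + 3 * ((m:ℝ)+3)^2) / (5 * c - 3) := by positivity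
      linarith
    have c5 : 6 * ((m:ℝ)+3) + 3 * ((m:ℝ)+3)^2 ≤ (5 * c - 3) * z := by
      have : (6 * ((m:ℝ)+3) + 3 * ((m:ℝ)+3)^2) / (5 * c - 3) ≤ z := by linarith
      rw [div_le_iff₀ hc'] at this
      linarith
    have c6 : 3 * ((z:ℝ) + m + 3)^2 ≤ 5 * n := by
      have e1 : 3 * ((z:ℝ) + m + 3)^2 = 3 * z^2 + 6 * (m+3) * z + 3 * ((m:ℝ)+3)^2 := by ring
      have e2 : 3 * ((m:ℝ)+3)^2 ≤ 3 * ((m:ℝ)+3)^2 * z := by
        have : 0 ≤ 3 * ((m:ℝ)+3)^2 := by positivity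
        nlinarith
      have e3 : (6 * ((m:ℝ)+3) + 3 * ((m:ℝ)+3)^2) * z ≤ (5 * c - 3) * z * z := by
        apply mul_le_mul_of_nonneg_right c5 (by linarith)
      nlinarith
    exact_mod_cast c6
  refine ⟨hA, ?_⟩
  obtain ⟨K', hK'⟩ := hA
  rw [Set.infinite_iff_exists_gt]
  intro M
  obtain ⟨n, h1, h2, h3⟩ := exists_zero_ge (a := seq m) (F := fun n => n * (n + 2 * m)) 
      (seq_rec m) (max K' M)
  obtain ⟨p1, p2⟩ := hK' n (le_trans (le_max_left _ _) h1) h3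
  refine ⟨n + 1, ⟨p1, ?_⟩, ?_⟩
  · have : n + 1 + 2 * m = n + 2 * m + 1 := by ring
    rw [this]; exact p2
  · have := le_trans (le_max_right K' M) h1
    omega

theorem growth_often (m : ℕ) (c : ℝ) (hc : 3 / 5 < c) 
    (h : ∀ K : ℕ, ∃ z z' : ℕ, K ≤ z ∧ Consec (seq m) z z' ∧ c * (z:ℝ)^2 ≤ z') :
    {p : ℕ | p.Prime ∧ (p + 2 * m).Prime}.Infinite := by
  have hc' : 0 < 5 * c - 3 := by linarith
  rw [Set.infinite_iff_exists_gt]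
  intro M
  obtain ⟨K2, hK2⟩ := exists_nat_ge ((6 * ((m:ℝ)+3) + 3 * ((m:ℝ)+3)^2) / (5 * c - 3) + 1)
  obtain ⟨z, n, b1, b2, c1⟩ := h (max M K2)
  have c2 : (K2:ℝ) ≤ z := by
    have : K2 ≤ z := le_trans (le_max_right _ _) b1
    exact_mod_cast this
  have c3 : (6 * ((m:ℝ)+3) + 3 * ((m:ℝ)+3)^2) / (5 * c - 3) + 1 ≤ z := le_trans hK2 c2
  have c4 : (1:ℝ) ≤ z := by
    have : 0 ≤ (6 * ((m:ℝ)+3) + 3 * ((m:ℝ)+3)^2) / (5 * c - 3) := by positivity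
    linarith
  have c5 : 6 * ((m:ℝ)+3) + 3 * ((m:ℝ)+3)^2 ≤ (5 * c - 3) * z := by
    have : (6 * ((m:ℝ)+3) + 3 * ((m:ℝ)+3)^2) / (5 * c - 3) ≤ z := by linarith
    rw [div_le_iff₀ hc'] at this
    linarith
  have c6 : 3 * ((z:ℝ) + m + 3)^2 ≤ 5 * n := by
    have e1 : 3 * ((z:ℝ) + m + 3)^2 = 3 * z^2 + 6 * (m+3) * z + 3 * ((m:ℝ)+3)^2 := by ring
    have e2 : 3 * ((m:ℝ)+3)^2 ≤ 3 * ((m:ℝ)+3)^2 * z := by
      have : 0 ≤ 3 * ((m:ℝ)+3)^2 := by positivity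
      nlinarith
    have e3 : (6 * ((m:ℝ)+3) + 3 * ((m:ℝ)+3)^2) * z ≤ (5 * c - 3) * z * z := by
      apply mul_le_mul_of_nonneg_right c5 (by linarith)
    nlinarith
  obtain ⟨p1, p2⟩ := prime_of m z n b2 (by exact_mod_cast c6)
  refine ⟨n + 1, ⟨p1, ?_⟩, ?_⟩
  · have : n + 1 + 2 * m = n + 2 * m + 1 := by ring
    rw [this]; exact p2
  · have := le_trans (le_max_left M K2) b1
    have := b2.2.1
    omega

end Pool.Agent.Q30.GR.Pair
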