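import Pool.Agent.Q30.GR.Base

set_option autoImplicit false

namespace Pool.Agent.Q30.GR

/-- run of the recursion `a n = a (n-1) - gcd (a (n-1)) (F n)` from index `s` to its zero `g` -/
theorem poly (F : ℕ → ℕ) (hF : ∀ M x y, 1 ≤ x → 1 ≤ y → x ≡ y [MOD M] → F x ≡ F y [MOD M])
    (hpar : ∀ x, 1 ≤ x → ¬ (2 ∣ F x ∧ 2 ∣ F (x+1))) (a : ℕ → ℕ) (s g : ℕ) (hsg : s ≤ g)
    (hrec : ∀ n, s < n → n ≤ g → a n + Nat.gcd (a (n-1)) (F n) = a (n-1))
    (hpos : ∀ n, s < n → n ≤ g → 0 < a (n-1)) (hz : a g = 0) :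
    ∀ ℓ, ℓ.Prime → ℓ ∣ F (g+1) → 5 * g < 2 * ℓ + 3 * a s + 5 * s + 1 := by
  classical
  set d : ℕ → ℕ := fun n => Nat.gcd (a (n-1)) (F n) with hd
  have hd1 : ∀ n, s < n → n ≤ g → 1 ≤ d n := fun n h1 h2 =>
    Nat.gcd_pos_of_pos_left _ (hpos n h1 h2)
  set φ : ℕ → ℕ := fun n => if 2 ∣ F (a n + n + 1) then 1 else 0 with hφ
  have key := main (fun n => 1 < d n) (fun n => 3 * (a n + n + 1) + φ n) 2 s g hsg (by
    intro n0 n1 hs h01 h1g hq he
    have hq1 : ∀ n, n0 < n → n ≤ n1 - 1 → d n = 1 := fun n x y => by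
      have := hq n x (by omega)
      have := hd1 n (by omega) (by omega)
      omega
    have hconst := quiet a d s g hrec n0 (n1-1) hs (by omega) hq1
    have hlast : a (n1 - 1) + n1 = a n0 + n0 + 1 := by
      have := hconst (n1-1) (by omega) le_rfl
      omega
    set G := a n0 + n0 + 1 with hG
    have hr1 : a n1 + d n1 = a (n1-1) := hrec n1 (by omega) h1g
    have hDa : d n1 ∣ a (n1-1) := Nat.gcd_dvd_left _ _
    have hDF : d n1 ∣ F n1 := Nat.gcd_dvd_right _ _
    have hGn : G ≡ n1 [MOD d n1] := by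
      rw [← hlast]
      obtain ⟨c, hc⟩ := hDa
      rw [hc]
      simp [Nat.ModEq]
    have hDG : d n1 ∣ F G := by
      have := hF _ _ _ (by omega) (by omega) hGn
      exact (Nat.ModEq.dvd_iff this dvd_rfl).mpr hDF
    have hpp : (d n1).minFac.Prime := Nat.minFac_prime (by omega)
    have hpD : (d n1).minFac ∣ d n1 := Nat.minFac_dvd _
    have hple : (d n1).minFac ≤ d n1 := Nat.minFac_le (by omega)
    set p := (d n1).minFac with hp
    have hw : n1 - n0 ≤ p := by
      by_contra hcon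
      have hn : d (n1 - p) = 1 := hq1 _ (by omega) (by have := hpp.pos; omega)
      have h1 : a (n1 - p - 1) + (n1 - p) = G := by
        have := hconst (n1-p-1) (by omega) (by omega)
        omega
      have h2 : p ∣ a (n1 - p - 1) := by
        have : a (n1 - p - 1) = a (n1-1) + p := by omega
        rw [this]
        exact (hpD.trans hDa).add (dvd_refl _)
      have h3 : p ∣ F (n1 - p) := by
        have h4 : n1 - p ≡ n1 [MOD p] := by
          have h5 : n1 - p + p = n1 := by omega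
          calc n1 - p ≡ n1 - p + p [MOD p] := by simp [Nat.ModEq]
            _ = n1 := h5
        exact (Nat.ModEq.dvd_iff (hF _ _ _ (by omega) (by omega) h4) dvd_rfl).mpr (hpD.trans hDF)
      have h6 : p ∣ d (n1 - p) := Nat.dvd_gcd h2 h3
      rw [hn] at h6
      exact hpp.one_lt.ne' (Nat.dvd_one.mp h6)
    rcases Nat.even_or_odd (d n1) with hev | hodd
    · have hp2 : p = 2 := by
        rw [hp, Nat.minFac_eq_two_iff]; exact hev.two_dvd
      have hF2 : 2 ∣ F G := hev.two_dvd.trans hDG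
      have hφ0 : φ n0 = 1 := by simp only [hφ]; rw [if_pos hF2]
      have hpar1 : a n1 + n1 + 1 ≡ G + 1 [MOD 2] := by
        have : a n1 + n1 + d n1 = G := by omega
        have h3 : a n1 + n1 + 1 + d n1 = G + 1 := by omega
        rw [← h3]
        obtain ⟨c, hc⟩ := hev.two_dvd
        rw [hc]; simp [Nat.ModEq]
      have hφ1 : φ n1 = 0 := by
        simp only [hφ]
        rw [if_neg]
        intro h
        exact hpar G (by omega) ⟨hF2, (Nat.ModEq.dvd_iff (hF _ _ _ (by omega) (by omega) hpar1) dvd_rfl).mp h⟩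
      rw [hφ0, hφ1]
      rw [hp2] at hw
      omega
    · have hφ1 : φ n1 = φ n0 := by
        simp only [hφ]
        have hpar1 : a n1 + n1 + 1 ≡ G [MOD 2] := by
          have h3 : a n1 + n1 + 1 + (d n1 - 1) = G := by omega
          rw [← h3]
          obtain ⟨c, hc⟩ := hodd
          rw [hc]; simp [Nat.ModEq]
        have h4 := Nat.ModEq.dvd_iff (hF _ _ _ (by omega) (by omega) hpar1) (dvd_refl 2)
        by_cases h5 : 2 ∣ F G
        · rw [if_pos h5, if_pos (h4.mpr h5)]
        · rw [if_neg h5, if_neg (fun h => h5 (h4.mp h))]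
      rw [hφ1]
      have : 3 ≤ d n1 := by
        obtain ⟨c, hc⟩ := hodd
        omega
      omega)
  obtain ⟨n0, a1, a2, a3, a4⟩ := key
  intro ℓ hℓ hdv
  have hq1 : ∀ n, n0 < n → n ≤ g → d n = 1 := fun n x y => by
    have := a3 n x y
    have := hd1 n (by omega) (by omega)
    omega
  have hconst := quiet a d s g hrec n0 g a1 le_rfl hq1
  have hgl : g < n0 + ℓ := by
    by_contra hcon
    obtain ⟨n, w1, w2, w3⟩ := window ℓ hℓ.pos (g+1) n0
    have hn : d n = 1 := hq1 n w1 (by omega)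
    have h1 : a (n-1) + n = g + 1 := by
      have h2 := hconst (n-1) (by omega) (by omega)
      have h3 := hconst g (by omega) le_rfl
      omega
    have h2 : ℓ ∣ F n := (Nat.ModEq.dvd_iff (hF _ _ _ (by omega) (by omega) w3) dvd_rfl).mpr hdv
    have h3 : ℓ ∣ a (n-1) := by
      rw [← h1] at w3
      have h4 : 0 + n ≡ a (n-1) + n [MOD ℓ] := by simpa using w3
      have h5 := Nat.ModEq.add_right_cancel' n h4
      exact (Nat.modEq_zero_iff_dvd).mp h5.symm
    have h6 : ℓ ∣ d n := Nat.dvd_gcd h3 h2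
    rw [hn] at h6
    exact hℓ.one_lt.ne' (Nat.dvd_one.mp h6)
  have hφs : φ s ≤ 1 := by simp only [hφ]; split_ifs <;> simp
  have hg0 := hconst g (by omega) le_rfl
  have h7 : a n0 + n0 = g := by omega
  omega

end Pool.Agent.Q30.GR
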