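import Pool.Agent.Q30.GR.Zero

set_option autoImplicit false

namespace Pool.Agent.Q30.GR.Pow

open Filter Topology

/-- the sequence `a_p(1), a_p(2), ...` of the problem -/
def seq (p : ℕ) : ℕ → ℕ
  | 0 => 0
  | 1 => 1
  | (n + 2) => Int.natAbs ((seq p (n + 1) : ℤ) -
      ((Nat.gcd (seq p (n + 1)) ((n + 2) ^ p - 1) : ℕ) : ℤ))

/-- `q_p(n) = ((n+1)^p - 1)/n`, written as a sum -/
def quo (p n : ℕ) : ℕ := ∑ k ∈ Finset.range p, (n + 1) ^ k

theorem quo_mul (p n : ℕ) : quo p n * n = (n + 1) ^ p - 1 := by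
  unfold quo
  have h2 : (∑ k ∈ Finset.range p, (n + 1) ^ k) * n + 1 = (n+1)^p := by
    induction p with
    | zero => simp
    | succ k ih => rw [Finset.sum_range_succ, add_mul, pow_succ]; nlinarith
  omega

theorem seq_rec (p n : ℕ) (hn : 2 ≤ n) : seq p n = Int.natAbs ((seq p (n-1) : ℤ) -
      ((Nat.gcd (seq p (n - 1)) (n ^ p - 1) : ℕ) : ℤ)) := by
  obtain ⟨k, rfl⟩ : ∃ k, n = k + 2 := ⟨n - 2, by omega⟩
  rw [seq]
  rfl

theorem cong (p : ℕ) : ∀ M x y : ℕ, 1 ≤ x → 1 ≤ y → x ≡ y [MOD M] → 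
    x ^ p - 1 ≡ y ^ p - 1 [MOD M] := by
  intro M x y hx hy h
  have h1 : 1 ≤ x ^ p := Nat.one_le_pow _ _ hx
  have h2 : 1 ≤ y ^ p := Nat.one_le_pow _ _ hy
  apply Nat.ModEq.add_right_cancel' 1
  rw [Nat.sub_add_cancel h1, Nat.sub_add_cancel h2]
  exact h.pow p

theorem par (p : ℕ) (hp : p ≠ 0) : 
    ∀ x : ℕ, 1 ≤ x → ¬ (2 ∣ x ^ p - 1 ∧ 2 ∣ (x+1) ^ p - 1) := by
  rintro x hx ⟨h1, h2⟩
  have a1 : 1 ≤ x ^ p := Nat.one_le_pow _ _ hx
  have a2 : 1 ≤ (x+1) ^ p := Nat.one_le_pow _ _ (by omega)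
  have b1 : ¬ Even (x ^ p) := by rw [Nat.even_iff]; omega
  have b2 : ¬ Even ((x+1) ^ p) := by rw [Nat.even_iff]; omega
  rw [Nat.even_pow' hp, Nat.even_iff] at b1 b2
  omega

theorem all (p : ℕ) (hp : p ≠ 0) (z z' : ℕ) (h : Consec (seq p) z z') :
    z' ≤ ((z + 1) ^ p - 1) + z + 1 ∧
    (∀ ℓ : ℕ, ℓ.Prime → ℓ ∣ z' * quo p z' → 
      5 * z' < 2 * ℓ + 3 * ((z + 1) ^ p - 1) + 5 * (z + 1) + 1) := by
  have key := consec_main (a := seq p) (F := fun n => n ^ p - 1) (cong p) (par p hp) 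
    (seq_rec p) z z' h
  refine ⟨key.1, fun ℓ hℓ hd => key.2 ℓ hℓ ?_⟩
  rw [mul_comm, quo_mul] at hd
  exact hd

theorem all' (p : ℕ) (hp : p ≠ 0) (z z' : ℕ) (h : Consec (seq p) z z') 
    (ℓ : ℕ) (hℓ : ℓ.Prime) (hd : ℓ ∣ z' * quo p z') :
    5 * (z':ℝ) < 2 * ℓ + 3 * ((z:ℝ) + 1) ^ p + 5 * z + 3 := by
  have h1 := (all p hp z z' h).2 ℓ hℓ hd
  have h2 : 1 ≤ (z+1)^p := Nat.one_le_pow _ _ (by omega)
  have h3 : 5 * z' < 2 * ℓ + 3 * (z + 1) ^ p + 5 * z + 3 := by omega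
  exact_mod_cast h3

theorem prime_of (p : ℕ) (hp : p ≠ 0) (z z' : ℕ) (h : Consec (seq p) z z') 
    (hb : 3 * ((z:ℝ) + 1) ^ p + 5 * z + 3 + 2 * √z' ≤ 5 * z') : z'.Prime := by
  have hz : 1 ≤ z := h.1
  have hz' : z < z' := h.2.1
  by_contra hcon
  have q1 := Nat.minFac_prime (by omega : z' ≠ 1)
  have q2 := all' p hp z z' h _ q1 ((Nat.minFac_dvd z').mul_right _)
  have q3 := Nat.minFac_sq_le_self (by omega : 0 < z') hcon
  have q4 : ((z'.minFac : ℝ))^2 ≤ z' := by exact_mod_cast q3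
  have q5 : (z'.minFac : ℝ) ≤ √z' := Real.le_sqrt_of_sq_le q4
  linarith

theorem zeros_ge (p M : ℕ) : ∃ n, M ≤ n ∧ 1 ≤ n ∧ seq p n = 0 := 
  exists_zero_ge (a := seq p) (F := fun n => n ^ p - 1) (seq_rec p) M

/-- a number with only large prime factors has few prime factors -/
theorem few (q P : ℕ) (hq : 1 ≤ q) (b : ℝ) (hb : 0 < b) 
    (h : ∀ ℓ : ℕ, ℓ.Prime → ℓ ∣ q → b ≤ ℓ) (hlt : (q:ℝ) < b ^ P) : 
    q.primeFactorsList.length < P := by
  by_contra hcon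
  push Not at hcon
  rcases Nat.eq_or_lt_of_le hq with h1 | h1
  · rw [← h1] at hcon hlt
    simp only [Nat.primeFactorsList_one, List.length_nil, nonpos_iff_eq_zero] at hcon
    rw [hcon] at hlt
    norm_num at hlt
  · have h2 : ∀ ℓ ∈ q.primeFactorsList, q.minFac ≤ ℓ := by
      intro ℓ hℓ
      rw [Nat.mem_primeFactorsList (by omega)] at hℓ
      exact Nat.minFac_le_of_dvd hℓ.1.two_le hℓ.2
    have h3 := List.pow_card_le_prod _ _ h2
    rw [Nat.prod_primeFactorsList (by omega)] at h3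
    have h4 : q.minFac ^ P ≤ q := 
      le_trans (Nat.pow_le_pow_right (Nat.minFac_pos q) hcon) h3
    have h5 : b ≤ q.minFac := h _ (Nat.minFac_prime (by omega)) (Nat.minFac_dvd q)
    have h6 : b ^ P ≤ (q.minFac : ℝ) ^ P := pow_le_pow_left₀ hb.le h5 P
    have h7 : ((q.minFac : ℝ)) ^ P ≤ q := by exact_mod_cast h4
    linarith

theorem local_growth (p : ℕ) (hp : 2 ≤ p) (c : ℝ) (hc : 3 / 5 < c) :
    ∃ K : ℕ, ∀ z n : ℕ, K ≤ z → Consec (seq p) z n → c * (z:ℝ)^p ≤ n →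
      n.Prime ∧ (quo p n).primeFactorsList.length < p := by
  obtain ⟨c1, hc1, hc1c⟩ := exists_between hc
  have hc0 : 0 < c := by linarith
  have hc10 : 0 < c1 := by linarith
  set κ : ℝ := 5 - 3 / c1 with hκ
  have hκ0 : 0 < κ := by
    rw [hκ, sub_pos, div_lt_iff₀ hc10]; linarith
  -- the comparison of powers
  have ev1 : ∀ᶠ z : ℕ in atTop, c1 * ((z:ℝ) + 1)^p ≤ c * (z:ℝ)^p := by
    have t1 : Tendsto (fun z : ℕ => (((z:ℝ) + 1) / z)^p) atTop (𝓝 (1^p)) := by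
      apply Tendsto.pow
      have t2 : Tendsto (fun z : ℕ => 1 + 1 / (z:ℝ)) atTop (𝓝 (1 + 0)) := 
        tendsto_const_nhds.add tendsto_one_div_atTop_nhds_zero_nat
      rw [add_zero] at t2
      refine t2.congr' ?_
      filter_upwards [eventually_ge_atTop 1] with z hz
      have : (z:ℝ) ≠ 0 := by positivity
      field_simp
    rw [one_pow] at t1
    have hlt : 1 < c / c1 := by rw [one_lt_div hc10]; exact hc1c
    filter_upwards [t1.eventually_lt_const hlt, eventually_ge_atTop 1] with z h1 h2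
    have hz : (0:ℝ) < z := by positivity
    rw [div_pow, div_lt_div_iff₀ (by positivity) hc10] at h1
    linarith
  have ev2 : ∀ᶠ z : ℕ in atTop, 16 / (κ * c) ≤ (z:ℝ) := 
    tendsto_natCast_atTop_atTop.eventually_ge_atTop _
  have ev3 : ∀ᶠ z : ℕ in atTop, 17 / κ^2 ≤ (z:ℝ) := 
    tendsto_natCast_atTop_atTop.eventually_ge_atTop _
  have ev4 : ∀ᶠ z : ℕ in atTop, (2 / (κ/4))^p + 1 ≤ (z:ℝ) := 
    tendsto_natCast_atTop_atTop.eventually_ge_atTop _
  obtain ⟨K2, hK2⟩ := eventually_atTop.mp (ev1.and (ev2.and (ev3.and ev4)))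
  refine ⟨max K2 1, fun z n hz b2 d1 => ?_⟩
  obtain ⟨d2, d3, d4, d5⟩ := hK2 z (by omega)
  have hz1 : (1:ℝ) ≤ z := by
    have : 1 ≤ z := by omega
    exact_mod_cast this
  have hzn : (z:ℝ) ≤ n := by
    have := b2.2.1
    exact_mod_cast this.le
  have hn0 : (0:ℝ) < n := by linarith
  -- prime factors are large
  have large : ∀ ℓ : ℕ, ℓ.Prime → ℓ ∣ n * quo p n → κ / 4 * n ≤ ℓ := by
    intro ℓ hℓ hd
    have e1 := all' p (by omega) z n b2 ℓ hℓ hd
    have e2 : 3 * ((z:ℝ) + 1)^p ≤ 3 / c1 * n := by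
      have : c1 * ((z:ℝ) + 1)^p ≤ n := le_trans d2 d1
      rw [div_mul_eq_mul_div, le_div_iff₀ hc10]
      nlinarith
    have e3 : 5 * (z:ℝ) + 3 ≤ κ / 2 * n := by
      have f1 : (z:ℝ)^2 ≤ (z:ℝ)^p := pow_le_pow_right₀ hz1 hp
      have f2 : c * (z:ℝ)^2 ≤ n := le_trans (mul_le_mul_of_nonneg_left f1 hc0.le) d1
      have f3 : 16 ≤ κ * c * z := by
        rw [div_le_iff₀ (by positivity)] at d3
        linarith
      have f4 : κ / 2 * (c * (z:ℝ)^2) ≤ κ / 2 * n := mul_le_mul_of_nonneg_left f2 (by positivity)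
      have f5 : 16 * z ≤ κ * c * z * z := mul_le_mul_of_nonneg_right f3 (by linarith)
      nlinarith
    have e4 : κ * n = 5 * n - 3 / c1 * n := by rw [hκ]; ring
    nlinarith
  constructor
  · by_contra hcon
    have hn1 : n ≠ 1 := by
      have := b2.2.1; omega
    have q1 := Nat.minFac_prime hn1
    have q2 := large _ q1 ((Nat.minFac_dvd n).mul_right _)
    have q3 := Nat.minFac_sq_le_self (by have := b2.2.1; omega : 0 < n) hcon
    have q4 : ((n.minFac : ℝ))^2 ≤ n := by exact_mod_cast q3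
    have q5 : (κ / 4 * n)^2 ≤ (n.minFac : ℝ)^2 := pow_le_pow_left₀ (by positivity) q2 2
    have q6 : 17 ≤ κ^2 * n := by
      rw [div_le_iff₀ (by positivity)] at d4
      nlinarith
    nlinarith
  · have hq0 : 1 ≤ quo p n := by
      unfold quo
      have : (n+1)^0 ≤ ∑ k ∈ Finset.range p, (n + 1) ^ k := 
        Finset.single_le_sum (f := fun k => (n+1)^k) (fun _ _ => Nat.zero_le _) 
          (Finset.mem_range.mpr (by omega))
      simpa using this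
    refine few (quo p n) p hq0 (κ / 4 * n) (by positivity) 
      (fun ℓ hℓ hd => large ℓ hℓ (hd.mul_left _)) ?_
    have g1 : (quo p n : ℝ) * n ≤ (2 * n)^p := by
      have : quo p n * n ≤ (2 * n)^p := by
        rw [quo_mul]
        have : (n+1)^p ≤ (2*n)^p := Nat.pow_le_pow_left (by have := b2.2.1; omega) p
        omega
      exact_mod_cast this
    have g2 : (2 / (κ/4))^p < (n:ℝ) := by linarith
    have g3 : 2^p < (κ/4)^p * n := by
      rw [div_pow, div_lt_iff₀ (by positivity)] at g2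
      linarith
    have g4 : (quo p n : ℝ) * n < (κ/4 * n)^p * n := by
      calc (quo p n : ℝ) * n ≤ (2 * n)^p := g1
        _ = 2^p * (n:ℝ)^p := by rw [mul_pow]
        _ < ((κ/4)^p * n) * (n:ℝ)^p := mul_lt_mul_of_pos_right g3 (by positivity)
        _ = (κ/4 * n)^p * n := by rw [mul_pow]; ring
    exact lt_of_mul_lt_mul_right g4 hn0.le

theorem growth (p : ℕ) (hp : 2 ≤ p) (c : ℝ) (hc : 3 / 5 < c) 
    (h : ∃ K : ℕ, ∀ z z' : ℕ, K ≤ z → Consec (seq p) z z' → c * (z:ℝ)^p ≤ z') :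
    ∃ K : ℕ, ∀ n : ℕ, K ≤ n → seq p n = 0 → 
      n.Prime ∧ (quo p n).primeFactorsList.length < p := by
  obtain ⟨K, hK⟩ := h
  obtain ⟨K2, hK2⟩ := local_growth p hp c hc
  obtain ⟨z0, a1, a2, a3⟩ := zeros_ge p (max (max K K2) 1)
  refine ⟨z0 + 1, fun n hn hz => ?_⟩
  obtain ⟨z, b1, b2⟩ := prev_zero (a := seq p) z0 n a2 (by omega) a3 hz
  exact hK2 z n (by omega) b2 (hK z n (by omega) b2)

theorem growth_two (c : ℝ) (hc : 3 / 5 < c) 
    (h : ∃ K : ℕ, ∀ z z' : ℕ, K ≤ z → Consec (seq 2) z z' → c * (z:ℝ)^2 ≤ z') :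
    ∃ K : ℕ, ∀ n : ℕ, K ≤ n → seq 2 n = 0 → n.Prime ∧ (n + 2).Prime := by
  obtain ⟨K, hK⟩ := growth 2 le_rfl c hc h
  refine ⟨K, fun n hn hz => ?_⟩
  obtain ⟨h1, h2⟩ := hK n hn hz
  refine ⟨h1, ?_⟩
  have h3 : quo 2 n = n + 2 := by
    unfold quo
    simp [Finset.sum_range_succ]; ring
  rw [h3] at h2
  have h4 : (n+2).primeFactorsList.length = 1 := by
    have : (n+2).primeFactorsList ≠ [] := by
      rw [ne_eq, Nat.primeFactorsList_eq_nil]; omega
    have := List.length_pos_iff.mpr this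
    omega
  obtain ⟨q, hq⟩ := List.length_eq_one_iff.mp h4
  have h5 := Nat.prod_primeFactorsList (by omega : n + 2 ≠ 0)
  rw [hq] at h5
  simp only [List.prod_cons, List.prod_nil, mul_one] at h5
  rw [← h5]
  exact Nat.prime_of_mem_primeFactorsList (n := n+2) (by rw [hq]; simp)

end Pool.Agent.Q30.GR.Pow

namespace Pool.Agent.Q30.GR.Pow

theorem quo_two (n : ℕ) : quo 2 n = n + 2 := by
  unfold quo
  simp [Finset.sum_range_succ]; ring

theorem prime_two (z z' : ℕ) (h : Consec (seq 2) z z') (hb : 3 * (z + 3) ^ 2 ≤ 5 * z') :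
    z'.Prime ∧ (z' + 2).Prime := by
  obtain ⟨h1, h2⟩ := all 2 (by norm_num) z z' h
  rw [quo_two] at h2
  have hz : 1 ≤ z := h.1
  have hz' : z < z' := h.2.1
  have h0 : (z+1)^2 - 1 = z^2 + 2 * z := by
    have : (z+1)^2 = z^2 + 2*z + 1 := by ring
    omega
  rw [h0] at h1
  have main : ∀ q : ℕ, 2 ≤ q → q ≤ z' + 2 → q ∣ z' * (z' + 2) → q.Prime := by
    intro q hq1 hq2 hq3
    by_contra hcon
    have q1 := Nat.minFac_prime (by omega : q ≠ 1)
    have q2 := h2 _ q1 ((Nat.minFac_dvd q).trans hq3)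
    rw [h0] at q2
    have q3 := Nat.minFac_sq_le_self (by omega : 0 < q) hcon
    have q4 : q.minFac ≤ z + 2 := by
      by_contra h5
      have : (z + 3)^2 ≤ q.minFac^2 := Nat.pow_le_pow_left (by omega) 2
      nlinarith
    nlinarith
  exact ⟨main _ (by omega) (by omega) (Dvd.intro _ rfl), 
    main _ (by omega) (by omega) (Dvd.intro_left _ rfl)⟩

/-- frequently late zeros give infinitely many twin primes -/
theorem growth_often (c : ℝ) (hc : 3 / 5 < c) 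
    (h : ∀ K : ℕ, ∃ z z' : ℕ, K ≤ z ∧ Consec (seq 2) z z' ∧ c * (z:ℝ)^2 ≤ z') :
    {p : ℕ | p.Prime ∧ (p + 2).Prime}.Infinite := by
  rw [Set.infinite_iff_exists_gt]
  intro M
  obtain ⟨K2, hK2⟩ := exists_nat_ge (45 / (5 * c - 3) + 1)
  have hc' : 0 < 5 * c - 3 := by linarith
  obtain ⟨z, n, b1, b2, c1⟩ := h (max M K2)
  have c2 : (K2:ℝ) ≤ z := by
    have : K2 ≤ z := le_trans (le_max_right _ _) b1
    exact_mod_cast this
  have c3 : 45 / (5 * c - 3) + 1 ≤ z := le_trans hK2 c2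
  have c4 : (1:ℝ) ≤ z := by
    have : 0 ≤ 45 / (5 * c - 3) := by positivity
    linarith
  have c5 : 45 ≤ (5 * c - 3) * z := by
    have : 45 / (5 * c - 3) ≤ z := by linarith
    rw [div_le_iff₀ hc'] at this
    linarith
  have c6 : 3 * ((z:ℝ) + 3)^2 ≤ 5 * n := by nlinarith
  obtain ⟨p1, p2⟩ := prime_two z n b2 (by exact_mod_cast c6)
  refine ⟨n, ⟨p1, p2⟩, ?_⟩
  have := le_trans (le_max_left M K2) b1
  have := b2.2.1
  omega

end Pool.Agent.Q30.GR.Pow
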