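import Pool.Agent.Q30.GR.TriDefs
import Pool.Agent.Q30.GR.Conv2

set_option autoImplicit false

namespace Pool.Agent.Q30.GR.Tri

theorem b_zero (n : ℕ) (h : n % 3 = 0) : b n = 0 := by unfold b; rw [if_neg (by omega), if_neg (by omega)]
theorem b_one (n : ℕ) (h : n % 3 = 1) : b n = 2 := by unfold b; rw [if_pos h]
theorem b_two (n : ℕ) (h : n % 3 = 2) : b n = 6 := by unfold b; rw [if_neg (by omega), if_pos h]
theorem b_mod (m n : ℕ) (h : m % 3 = n % 3) : b m = b n := by unfold b; rw [h]
theorem b_even (n : ℕ) : 2 ∣ b n := by unfold b; split_ifs <;> decide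

theorem triple (N : ℕ) (hN : 6 ≤ N) (a : ℕ → ℕ) (g : ℕ) (hg : 1 ≤ g) (ha : a 1 = N - 6)
    (hrec : ∀ n, 1 < n → n ≤ g → a n + Nat.gcd (a (n-1)) (n + b n) = a (n-1))
    (hpos : ∀ n, 1 < n → n ≤ g → 0 < a (n-1)) (hz : a g = 0) :
    g ≤ N - 5 ∧ 
    (∀ p, p.Prime → (p ∣ (g + 1) ∨ p ∣ (g + 3) ∨ p ∣ (g + 7)) → 19 * g + 71 < 12 * p + 15 * N) ∧
    (∀ n, 15 * (N - 5 - g) < 4 * (n - 1) → n ≤ g → Nat.gcd (a (n-1)) (n + b n) = 1) := by
  classical
  set F : ℕ → ℕ := fun n => n + b n with hF
  set d : ℕ → ℕ := fun n => Nat.gcd (a (n-1)) (F n) with hd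
  have hd1 : ∀ n, 1 < n → n ≤ g → 1 ≤ d n := fun n h1 h2 =>
    Nat.gcd_pos_of_pos_left _ (hpos n h1 h2)
  have hmono : ∀ n, 1 ≤ n → n ≤ g → a n + n ≤ N - 5 := by
    intro n hn
    induction n, hn using Nat.le_induction with
    | base => intro _; omega
    | succ k hk ih =>
      intro hkg
      have h1 := ih (by omega)
      have h2 := hrec (k+1) (by omega) hkg
      have h3 := hd1 (k+1) (by omega) hkg
      have h4 : a (k+1) + d (k+1) = a (k+1-1) := h2
      rw [Nat.add_sub_cancel] at h4
      omega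
  have hgN : g ≤ N - 5 := by
    have := hmono g (by omega) le_rfl
    omega
  have key := main (fun n => 1 < d n) (fun n => 15 * (a n + n + 1)) 4 1 g (by omega) (by
    intro n0 n1 hs h01 h1g hq he
    have hq1 : ∀ n, n0 < n → n ≤ n1 - 1 → d n = 1 := fun n x y => by
      have := hq n x (by omega)
      have := hd1 n (by omega) (by omega)
      omega
    have hconst := quiet a d 1 g hrec n0 (n1-1) hs (by omega) hq1
    have hlast : a (n1 - 1) + n1 = a n0 + n0 + 1 := by
      have := hconst (n1-1) (by omega) le_rfl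
      omega
    set G := a n0 + n0 + 1 with hG
    have hr1 : a n1 + d n1 = a (n1-1) := hrec n1 (by omega) h1g
    have hDa : d n1 ∣ a (n1-1) := Nat.gcd_dvd_left _ _
    have hDF : d n1 ∣ F n1 := Nat.gcd_dvd_right _ _
    have hpp : (d n1).minFac.Prime := Nat.minFac_prime (by omega)
    have hpD : (d n1).minFac ∣ d n1 := Nat.minFac_dvd _
    have hple : (d n1).minFac ≤ d n1 := Nat.minFac_le (by omega)
    set p := (d n1).minFac with hp
    have hgen : ∀ M, 0 < M → p ∣ M → (M < n1 → p ∣ F (n1 - M)) → n1 - n0 ≤ M := by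
      intro M hM hpM hFM
      by_contra hcon
      have hn : d (n1 - M) = 1 := hq1 _ (by omega) (by omega)
      have h1 : a (n1 - M - 1) + (n1 - M) = G := by
        have := hconst (n1-M-1) (by omega) (by omega)
        omega
      have h2 : p ∣ a (n1 - M - 1) := by
        have : a (n1 - M - 1) = a (n1-1) + M := by omega
        rw [this]
        exact (hpD.trans hDa).add hpM
      have h6 : p ∣ d (n1 - M) := Nat.dvd_gcd h2 (hFM (by omega))
      rw [hn] at h6
      exact hpp.one_lt.ne' (Nat.dvd_one.mp h6)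
    have h4 : p ∣ F n1 := hpD.trans hDF
    rcases Nat.eq_or_lt_of_le hpp.two_le with h | h
    · have hw := hgen 2 (by omega) (by rw [← h]) (by
        intro hlt
        simp only [hF] at h4 ⊢
        rw [← h] at h4 ⊢
        have e1 := b_even n1
        have e2 := b_even (n1 - 2)
        have e3 : 2 ∣ n1 := by
          have := (Nat.dvd_add_iff_left e1).mpr h4
          exact this
        have e4 : 2 ∣ n1 - 2 := Nat.dvd_sub e3 (dvd_refl 2)
        exact e4.add e2)
      omega
    · have hgen3 : ∀ M, 0 < M → 3 ∣ M → p ∣ M → n1 - n0 ≤ M := by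
        intro M hM h3M hpM
        refine hgen M hM hpM (fun hlt => ?_)
        simp only [hF] at h4 ⊢
        have e1 : b (n1 - M) = b n1 := b_mod _ _ (by omega)
        rw [e1]
        have e2 : n1 - M + b n1 = n1 + b n1 - M := by omega
        rw [e2]
        exact Nat.dvd_sub h4 hpM
      by_cases h3 : p = 3
      · have hw := hgen3 3 (by omega) (dvd_refl 3) (by rw [h3])
        omega
      · have hw := hgen3 (3 * p) (by omega) (Dvd.intro p rfl) (Dvd.intro_left 3 rfl)
        have h4p : p ≠ 4 := by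
          intro h
          rw [h] at hpp
          exact absurd hpp (by norm_num)
        omega)
  obtain ⟨n0, a1, a2, a3, a4⟩ := key
  have hq1 : ∀ n, n0 < n → n ≤ g → d n = 1 := fun n x y => by
    have := a3 n x y
    have := hd1 n (by omega) (by omega)
    omega
  have hconst := quiet a d 1 g hrec n0 g a1 le_rfl hq1
  have hg0 := hconst g (by omega) le_rfl
  have h7 : a n0 + n0 = g := by omega
  have h1n : ∀ n, n0 < n → n ≤ g → a (n-1) + n = g + 1 := by
    intro n x y
    have := hconst (n-1) (by omega) (by omega)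
    omega
  have hno : ∀ n q, n0 < n → n ≤ g → q.Prime → q ∣ a (n-1) → q ∣ F n → False := by
    intro n q x y hq u v
    have h6 : q ∣ d n := Nat.dvd_gcd u v
    rw [hq1 n x y] at h6
    exact hq.one_lt.ne' (Nat.dvd_one.mp h6)
  have hdvd : ∀ n q, n0 < n → n ≤ g → n ≡ g + 1 [MOD q] → q ∣ a (n-1) := by
    intro n q x y w3
    rw [← h1n n x y] at w3
    have h4 : 0 + n ≡ a (n-1) + n [MOD q] := by simpa using w3
    exact (Nat.modEq_zero_iff_dvd).mp (Nat.ModEq.add_right_cancel' n h4).symm
  refine ⟨hgN, ?_, ?_⟩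
  · intro p hp hdv
    have hgl : g < n0 + 3 * p := by
      by_contra hcon
      have hp2 := hp.two_le
      rcases hdv with hdv | hdv | hdv
      · obtain ⟨n, w1, w2, w3⟩ := window (3 * p) (by omega) 0 n0
        have w4 : 3 * p ∣ n := (Nat.modEq_zero_iff_dvd).mp w3
        have w5 : p ∣ n := (Dvd.intro_left 3 rfl).trans w4
        have w6 : 3 ∣ n := (Dvd.intro p rfl).trans w4
        refine hno n p w1 (by omega) hp (hdvd n p w1 (by omega) ?_) ?_
        · exact ((Nat.modEq_zero_iff_dvd).mpr w5).trans ((Nat.modEq_zero_iff_dvd).mpr hdv).symm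
        · simp only [hF]; rw [b_zero n (by omega)]; exact w5
      · obtain ⟨n, w1, w2, w3⟩ := window (3 * p) (by omega) (3 * p - 2) n0
        have w4 : n + 2 ≡ 3 * p - 2 + 2 [MOD (3 * p)] := w3.add_right 2
        rw [Nat.sub_add_cancel (by omega)] at w4
        have w4' : 3 * p ∣ n + 2 := 
          (Nat.modEq_zero_iff_dvd).mp (w4.trans ((Nat.modEq_zero_iff_dvd).mpr (dvd_refl _)))
        have w5 : p ∣ n + 2 := (Dvd.intro_left 3 rfl).trans w4'
        have w6 : 3 ∣ n + 2 := (Dvd.intro p rfl).trans w4'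
        refine hno n p w1 (by omega) hp (hdvd n p w1 (by omega) ?_) ?_
        · have w7 : n + 2 ≡ g + 1 + 2 [MOD p] := 
            ((Nat.modEq_zero_iff_dvd).mpr w5).trans ((Nat.modEq_zero_iff_dvd).mpr hdv).symm
          exact Nat.ModEq.add_right_cancel' 2 w7
        · simp only [hF]; rw [b_one n (by omega)]; exact w5
      · by_cases h3 : p = 3
        · subst h3
          obtain ⟨n, w1, w2, w3⟩ := window 3 (by omega) 0 n0
          have w4 : 3 ∣ n := (Nat.modEq_zero_iff_dvd).mp w3
          refine hno n 3 w1 (by omega) hp (hdvd n 3 w1 (by omega) ?_) ?_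
          · unfold Nat.ModEq; omega
          · simp only [hF]; rw [b_zero n (by omega)]; exact w4
        · have hcop : Nat.Coprime 3 p := (Nat.coprime_primes Nat.prime_three hp).mpr (Ne.symm h3)
          obtain ⟨r, hr1, hr2⟩ := Nat.chineseRemainder hcop 2 (g+1)
          obtain ⟨n, w1, w2, w3⟩ := window (3 * p) (by omega) r n0
          have w4 : n ≡ 2 [MOD 3] := (w3.of_dvd (Dvd.intro p rfl)).trans hr1
          have w5 : n ≡ g + 1 [MOD p] := (w3.of_dvd (Dvd.intro_left 3 rfl)).trans hr2
          refine hno n p w1 (by omega) hp (hdvd n p w1 (by omega) w5) ?_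
          simp only [hF]
          rw [b_two n w4]
          have w6 : n + 6 ≡ g + 1 + 6 [MOD p] := w5.add_right 6
          exact (Nat.modEq_zero_iff_dvd).mp (w6.trans ((Nat.modEq_zero_iff_dvd).mpr hdv))
    omega
  · intro n x y
    exact hq1 n (by omega) y

end Pool.Agent.Q30.GR.Tri
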