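import Mathlib

set_option autoImplicit false

namespace Pool.Agent.Q30.GR.Tri

/-- the periodic shifts `2, 6, 0` -/
def b (n : ℕ) : ℕ := if n % 3 = 1 then 2 else if n % 3 = 2 then 6 else 0

/-- the sequence `a_N(1), a_N(2), ...` of the problem -/
def seq (N : ℕ) : ℕ → ℤ
  | 0 => 0
  | 1 => (N : ℤ) - 6
  | (n + 2) => seq N (n + 1) - ((Int.gcd (seq N (n + 1)) ((n + 2 + b (n + 2) : ℕ) : ℤ) : ℕ) : ℤ)

/-- the gcd subtracted in step `n` (for `n ≥ 2`) -/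
def step (N n : ℕ) : ℕ := Int.gcd (seq N (n - 1)) ((n + b n : ℕ) : ℤ)

/-- the index `f(N)` -/
noncomputable def idx (N : ℕ) : ℕ := sInf {n : ℕ | 1 ≤ n ∧ seq N n = 0}

end Pool.Agent.Q30.GR.Tri
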