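import Pool.Agent.Q30.GR.TriMain

set_option autoImplicit false

namespace Pool.Agent.Q30.GR.Tri

open Filter

theorem seq_of_triple (p : ℕ) (h0 : p.Prime) (h2 : (p + 2).Prime) (h6 : (p + 6).Prime) :
    ∀ n, 1 ≤ n → n ≤ p - 1 → seq (p + 4) n = (p : ℤ) - n - 1 := by
  intro n hn
  induction n, hn using Nat.le_induction with
  | base => 
    intro _
    have : seq (p+4) 1 = ((p+4 : ℕ):ℤ) - 6 := by rw [seq]
    rw [this]; push_cast; ring
  | succ k hk ih =>
    intro hkp
    have h1 := ih (by omega)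
    have h3 := seq_rec (p+4) (k+1) (by omega)
    rw [Nat.add_sub_cancel, h1] at h3
    have h4 : step (p+4) (k+1) = 1 := by
      unfold step
      rw [Nat.add_sub_cancel, h1]
      have e1 : (p:ℤ) - k - 1 = ((p - k - 1 : ℕ) : ℤ) := by omega
      rw [e1, Int.gcd_natCast_natCast]
      set R := p - k - 1 with hR
      have hRp : 0 < R := by omega
      have e2 : Nat.gcd R (k + 1 + b (k+1)) = Nat.gcd R (p + b (k+1)) := by
        have : p + b (k+1) = (k + 1 + b (k+1)) + R := by omega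
        rw [this, Nat.gcd_add_self_right]
      rw [e2]
      have e3 : (p + b (k+1)).Prime := by
        unfold b; split_ifs
        · exact h2
        · exact h6
        · exact h0
      apply Nat.Coprime.symm
      rw [Nat.Prime.coprime_iff_not_dvd e3]
      intro hd
      have := Nat.le_of_dvd hRp hd
      omega
    rw [h4] at h3
    rw [h3]; push_cast; ring

theorem idx_of_triple (p : ℕ) (h0 : p.Prime) (h2 : (p + 2).Prime) (h6 : (p + 6).Prime) :
    idx (p + 4) = p - 1 := by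
  have hp := h0.two_le
  have key := seq_of_triple p h0 h2 h6
  unfold idx
  apply le_antisymm
  · apply Nat.sInf_le
    refine ⟨by omega, ?_⟩
    rw [key (p-1) (by omega) le_rfl]; omega
  · apply le_csInf
    · exact exists_zero (p+4) (by omega)
    · rintro n ⟨hn, hz⟩
      by_contra hcon
      rw [key n hn (by omega)] at hz
      omega

theorem infinite_of_frequently (c : ℝ) (hc : 15 / 19 < c) 
    (h : ∃ᶠ N : ℕ in atTop, c * N ≤ (idx N : ℝ)) : 
    {p : ℕ | p.Prime ∧ (p + 2).Prime ∧ (p + 6).Prime}.Infinite := by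
  rw [Set.infinite_iff_exists_gt]
  intro M
  have h1 : ∀ᶠ N : ℕ in atTop, 144 / (19 * c - 15)^2 ≤ (N:ℝ) := 
    tendsto_natCast_atTop_atTop.eventually_ge_atTop _
  have h2 : ∀ᶠ N : ℕ in atTop, (M:ℝ) / c ≤ (N:ℝ) := 
    tendsto_natCast_atTop_atTop.eventually_ge_atTop _
  obtain ⟨N, a1, a2, a3, a4⟩ := 
    (h.and_eventually (h1.and (h2.and (eventually_ge_atTop 6)))).exists
  have hc' : 0 < 19 * c - 15 := by linarith
  have hN : (0:ℝ) < N := by positivity
  have h3 : 12 * √(N:ℝ) ≤ (19 * c - 15) * N := by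
    have e1 : √(N:ℝ) ≤ (19 * c - 15) * N / 12 := by
      rw [Real.sqrt_le_left (by positivity)]
      have : 144 ≤ (19 * c - 15)^2 * N := by
        rw [div_le_iff₀ (by positivity)] at a2
        linarith
      nlinarith
    linarith
  have a5 := prime_of N a4 (by nlinarith)
  refine ⟨idx N + 1, ⟨a5.1, a5.2.1, a5.2.2⟩, ?_⟩
  have hc0 : 0 < c := by linarith
  have : (M:ℝ) ≤ idx N := by
    rw [div_le_iff₀ hc0] at a3
    linarith
  have : M ≤ idx N := by exact_mod_cast this
  omega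

theorem frequently_of_infinite (h : {p : ℕ | p.Prime ∧ (p + 2).Prime ∧ (p + 6).Prime}.Infinite) :
    ∃ᶠ N : ℕ in atTop, idx N = N - 5 := by
  rw [Filter.frequently_atTop]
  intro M
  obtain ⟨p, ⟨h0, h2, h6⟩, hp⟩ := h.exists_gt M
  exact ⟨p + 4, by omega, by rw [idx_of_triple p h0 h2 h6]; omega⟩

theorem equiv1 : {p : ℕ | p.Prime ∧ (p + 2).Prime ∧ (p + 6).Prime}.Infinite ↔ 
    ∃ᶠ N : ℕ in atTop, idx N = N - 5 := by
  refine ⟨frequently_of_infinite, fun h => infinite_of_frequently (9/10) (by norm_num) ?_⟩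
  refine (h.and_eventually (eventually_ge_atTop 50)).mono ?_
  rintro N ⟨h1, h2⟩
  rw [h1]
  have : (50:ℝ) ≤ N := by exact_mod_cast h2
  push_cast [show 5 ≤ N by omega]
  linarith

theorem equiv2 (c : ℝ) (hc : 15 / 19 < c) (hc1 : c < 1) : 
    {p : ℕ | p.Prime ∧ (p + 2).Prime ∧ (p + 6).Prime}.Infinite ↔ 
    ∃ᶠ N : ℕ in atTop, c * N ≤ (idx N : ℝ) := by
  refine ⟨fun h => ?_, infinite_of_frequently c hc⟩
  have h1 := frequently_of_infinite h
  have h2 : ∀ᶠ N : ℕ in atTop, 5 / (1 - c) ≤ (N:ℝ) := 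
    tendsto_natCast_atTop_atTop.eventually_ge_atTop _
  refine (h1.and_eventually (h2.and (eventually_ge_atTop 5))).mono ?_
  rintro N ⟨a1, a2, a3⟩
  rw [a1]
  rw [div_le_iff₀ (by linarith)] at a2
  push_cast [a3]
  linarith

end Pool.Agent.Q30.GR.Tri
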