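import Pool.Agent.Q30.GR.Tri

set_option autoImplicit false

namespace Pool.Agent.Q30.GR.Tri

theorem seq_rec (N n : ℕ) (hn : 1 < n) : seq N n = seq N (n-1) - (step N n : ℤ) := by
  obtain ⟨k, rfl⟩ : ∃ k, n = k + 2 := ⟨n - 2, by omega⟩
  rw [seq]
  rfl

theorem exists_zero (N : ℕ) (hN : 6 ≤ N) : ∃ n, 1 ≤ n ∧ seq N n = 0 := by
  by_contra hcon
  push Not at hcon
  have key : ∀ n, 1 ≤ n → 0 < seq N n ∧ seq N n + n ≤ N - 5 := by
    intro n hn
    induction n, hn using Nat.le_induction with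
    | base => 
      have h1 : seq N 1 = (N:ℤ) - 6 := by rw [seq]
      have h2 := hcon 1 le_rfl
      rw [h1] at h2 ⊢; push_cast; omega
    | succ k hk ih =>
      have h1 := seq_rec N (k+1) (by omega)
      rw [Nat.add_sub_cancel] at h1
      have h2 : (step N (k+1) : ℤ) ≤ seq N k := by
        unfold step
        rw [Nat.add_sub_cancel]
        exact Int.le_of_dvd ih.1 (Int.gcd_dvd_left ..)
      have h3 : 0 < step N (k+1) := by
        unfold step
        rw [Nat.add_sub_cancel]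
        exact Int.gcd_pos_of_ne_zero_left _ ih.1.ne'
      have h4 := hcon (k+1) (by omega)
      push_cast
      omega
  have := key (N+1) (by omega)
  push_cast at this
  omega

theorem all (N : ℕ) (hN : 6 ≤ N) : 
    (1 ≤ idx N ∧ seq N (idx N) = 0) ∧ idx N ≤ N - 5 ∧
    (∀ n, 15 * (N - 5 - idx N) < 4 * (n - 1) → n ≤ idx N → step N n = 1) ∧
    (∀ p : ℕ, p.Prime → (p ∣ (idx N + 1) ∨ p ∣ (idx N + 3) ∨ p ∣ (idx N + 7)) → 
      19 * idx N + 71 < 12 * p + 15 * N) := by
  classical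
  have hmem : 1 ≤ idx N ∧ seq N (idx N) = 0 := Nat.sInf_mem (exists_zero N hN)
  set g := idx N with hg
  have hmin : ∀ n, 1 ≤ n → n < g → seq N n ≠ 0 := by
    intro n h1 h2 h3
    exact Nat.notMem_of_lt_sInf h2 ⟨h1, h3⟩
  have h1 : seq N 1 = (N:ℤ) - 6 := by rw [seq]
  obtain ⟨hpos, hnat, hgcd⟩ := conv2 (seq N) (fun n => ((n + b n : ℕ) : ℤ)) 1 g 
    (by rw [h1]; omega) (fun n hn => seq_rec N n hn) hmin
  have hab : ∀ n : ℕ, ((n + b n : ℕ) : ℤ).natAbs = n + b n := fun n => Int.natAbs_natCast _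
  have hstep : ∀ n, 1 < n → n ≤ g → 
      step N n = Nat.gcd (seq N (n-1)).toNat (n + b n) := by
    intro n x y
    have := hgcd n x y
    rw [hab] at this
    exact this.symm
  have key := triple N hN (fun n => (seq N n).toNat) g hmem.1 (by simp only [h1]; omega) (by
    intro n x y
    have := hnat n x y
    rwa [hab] at this) (by
    intro n x y
    have := hpos (n-1) (by omega) (by omega)
    omega) (by simp only [hmem.2]; rfl)
  refine ⟨hmem, key.1, ?_, ?_⟩
  · intro n x y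
    rw [hstep n (by omega) y]
    exact key.2.2 n x y
  · intro p hp hdv
    exact key.2.1 p hp hdv

theorem prime_of (N : ℕ) (hN : 6 ≤ N) (h : 15 * (N:ℝ) + 12 * √N ≤ 19 * idx N) : 
    (idx N + 1).Prime ∧ (idx N + 3).Prime ∧ (idx N + 7).Prime := by
  obtain ⟨h1, h2, h3, h4⟩ := all N hN
  set g := idx N with hg
  have main : ∀ m : ℕ, 2 ≤ m → m ≤ N + 2 → 
      (∀ p : ℕ, p.Prime → p ∣ m → 19 * g + 71 < 12 * p + 15 * N) → m.Prime := by
    intro m hm hm2 hp
    by_contra hcon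
    have q1 := Nat.minFac_prime (by omega : m ≠ 1)
    have q2 := hp _ q1 (Nat.minFac_dvd m)
    have q3 := Nat.minFac_sq_le_self (by omega : 0 < m) hcon
    have q4 : ((m.minFac : ℝ))^2 ≤ N + 2 := by
      have : m.minFac^2 ≤ N + 2 := le_trans q3 hm2
      exact_mod_cast this
    have q5 : (19 * (g:ℝ) + 71) < 12 * m.minFac + 15 * N := by exact_mod_cast q2
    have q6 : (0:ℝ) ≤ √N := Real.sqrt_nonneg _
    have q7 : √(N:ℝ) ^2 = N := Real.sq_sqrt (by positivity)
    have q9 : (1:ℝ) ≤ √N := by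
      rw [Real.one_le_sqrt]
      have : 1 ≤ N := by omega
      exact_mod_cast this
    have q8 : (m.minFac : ℝ) ≤ √N + 2 := by
      apply abs_le_of_sq_le_sq' _ (by positivity) |>.2
      nlinarith
    linarith
  exact ⟨main _ (by omega) (by omega) (fun p hp hd => h4 p hp (Or.inl hd)),
    main _ (by omega) (by omega) (fun p hp hd => h4 p hp (Or.inr (Or.inl hd))),
    main _ (by omega) (by omega) (fun p hp hd => h4 p hp (Or.inr (Or.inr hd)))⟩

theorem eventually_prime (c : ℝ) (hc : 15 / 19 < c) 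
    (h : ∀ᶠ N : ℕ in Filter.atTop, c * N ≤ (idx N : ℝ)) : 
    ∀ᶠ N : ℕ in Filter.atTop, (idx N + 1).Prime ∧ (idx N + 3).Prime ∧ (idx N + 7).Prime := by
  have h1 : ∀ᶠ N : ℕ in Filter.atTop, 144 / (19 * c - 15)^2 ≤ (N:ℝ) := 
    tendsto_natCast_atTop_atTop.eventually_ge_atTop _
  filter_upwards [h, h1, Filter.eventually_ge_atTop 6] with N a1 a2 a3
  refine prime_of N a3 ?_
  have hc' : 0 < 19 * c - 15 := by linarith
  have hN : (0:ℝ) < N := by positivity
  have : 12 * √(N:ℝ) ≤ (19 * c - 15) * N := by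
    have e1 : √(N:ℝ) ≤ (19 * c - 15) * N / 12 := by
      rw [Real.sqrt_le_left (by positivity)]
      have : 144 ≤ (19 * c - 15)^2 * N := by
        rw [div_le_iff₀ (by positivity)] at a2
        linarith
      nlinarith
    linarith
  nlinarith

theorem infinite_triples (c : ℝ) (hc : 15 / 19 < c) 
    (h : ∀ᶠ N : ℕ in Filter.atTop, c * N ≤ (idx N : ℝ)) : 
    {p : ℕ | p.Prime ∧ (p + 2).Prime ∧ (p + 6).Prime}.Infinite := by
  have h1 := eventually_prime c hc h
  rw [Set.infinite_iff_exists_gt]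
  intro M
  have h2 : ∀ᶠ N : ℕ in Filter.atTop, (M:ℝ) / c ≤ (N:ℝ) := 
    tendsto_natCast_atTop_atTop.eventually_ge_atTop _
  obtain ⟨N, a1, a2, a3⟩ := (h.and (h1.and h2)).exists
  refine ⟨idx N + 1, ⟨a2.1, a2.2.1, a2.2.2⟩, ?_⟩
  have hc0 : 0 < c := by linarith
  have : (M:ℝ) ≤ idx N := by
    rw [div_le_iff₀ hc0] at a3
    linarith
  have : M ≤ idx N := by exact_mod_cast this
  omega

end Pool.Agent.Q30.GR.Tri
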