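import Pool.Agent.Q30.GR.Poly

set_option autoImplicit false

namespace Pool.Agent.Q30.GR

/-- `z < z'` are consecutive zeros -/
def Consec (a : ℕ → ℕ) (z z' : ℕ) : Prop :=
  1 ≤ z ∧ z < z' ∧ a z = 0 ∧ a z' = 0 ∧ ∀ n, z < n → n < z' → a n ≠ 0

variable {a F : ℕ → ℕ}

theorem step_zero (hrec : ∀ n, 2 ≤ n → 
      a n = Int.natAbs ((a (n-1) : ℤ) - ((Nat.gcd (a (n-1)) (F n) : ℕ) : ℤ)))
    (n : ℕ) (hn : 2 ≤ n) (h : a (n-1) = 0) : a n = F n := by
  rw [hrec n hn, h]; simp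

theorem step_pos (hrec : ∀ n, 2 ≤ n → 
      a n = Int.natAbs ((a (n-1) : ℤ) - ((Nat.gcd (a (n-1)) (F n) : ℕ) : ℤ)))
    (n : ℕ) (hn : 2 ≤ n) (h : 0 < a (n-1)) : a n + Nat.gcd (a (n-1)) (F n) = a (n-1) := by
  have h1 := hrec n hn
  have h2 : Nat.gcd (a (n-1)) (F n) ≤ a (n-1) := Nat.gcd_le_left _ h
  omega

theorem exists_zero_ge (hrec : ∀ n, 2 ≤ n → 
      a n = Int.natAbs ((a (n-1) : ℤ) - ((Nat.gcd (a (n-1)) (F n) : ℕ) : ℤ)))
    (M : ℕ) : ∃ n, M ≤ n ∧ 1 ≤ n ∧ a n = 0 := by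
  by_contra hcon
  push Not at hcon
  have key : ∀ k, a (M + 1 + k) + k ≤ a (M + 1) := by
    intro k
    induction k with
    | zero => simp
    | succ k ih =>
      have h1 := hcon (M+1+k) (by omega) (by omega)
      have h2 := step_pos hrec (M+1+(k+1)) (by omega) (by
        have : M + 1 + (k+1) - 1 = M + 1 + k := by omega
        rw [this]; omega)
      have h3 : M + 1 + (k+1) - 1 = M + 1 + k := by omega
      rw [h3] at h2
      have h4 : 0 < Nat.gcd (a (M+1+k)) (F (M+1+(k+1))) := Nat.gcd_pos_of_pos_left _ (by omega)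
      omega
  have h1 := key (a (M+1) + 1)
  omega

theorem prev_zero (z0 n : ℕ) (h0 : 1 ≤ z0) (h1 : z0 < n) (hz0 : a z0 = 0) (hn : a n = 0) :
    ∃ z, z0 ≤ z ∧ Consec a z n := by
  classical
  obtain ⟨n0, a1, a2, a3, a4⟩ := exists_last (fun k => a k = 0) z0 (n-1) (by omega)
  refine ⟨n0, a1, by omega, by omega, ?_, hn, fun k x y => a4 k x (by omega)⟩
  rcases a3 with a3 | a3
  · rw [a3]; exact hz0
  · exact a3

theorem consec_main (hF : ∀ M x y, 1 ≤ x → 1 ≤ y → x ≡ y [MOD M] → F x ≡ F y [MOD M])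
    (hpar : ∀ x, 1 ≤ x → ¬ (2 ∣ F x ∧ 2 ∣ F (x+1)))
    (hrec : ∀ n, 2 ≤ n → 
      a n = Int.natAbs ((a (n-1) : ℤ) - ((Nat.gcd (a (n-1)) (F n) : ℕ) : ℤ)))
    (z z' : ℕ) (h : Consec a z z') : 
    z' ≤ F (z+1) + z + 1 ∧
    ∀ ℓ : ℕ, ℓ.Prime → ℓ ∣ F (z'+1) → 5 * z' < 2 * ℓ + 3 * F (z+1) + 5 * (z+1) + 1 := by
  obtain ⟨h1, h2, h3, h4, h5⟩ := h
  have hs : a (z+1) = F (z+1) := step_zero hrec (z+1) (by omega) (by rw [Nat.add_sub_cancel]; exact h3)
  have hpos : ∀ n, z + 1 < n → n ≤ z' → 0 < a (n-1) := by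
    intro n x y
    have := h5 (n-1) (by omega) (by omega)
    omega
  have hr : ∀ n, z + 1 < n → n ≤ z' → a n + Nat.gcd (a (n-1)) (F n) = a (n-1) := by
    intro n x y
    exact step_pos hrec n (by omega) (hpos n x y)
  have hmono : ∀ n, z + 1 ≤ n → n ≤ z' → a n + n ≤ F (z+1) + (z+1) := by
    intro n hn
    induction n, hn using Nat.le_induction with
    | base => intro _; omega
    | succ k hk ih =>
      intro hkg
      have b1 := ih (by omega)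
      have b2 := hr (k+1) (by omega) hkg
      have b3 := hpos (k+1) (by omega) hkg
      have b4 : 0 < Nat.gcd (a (k+1-1)) (F (k+1)) := Nat.gcd_pos_of_pos_left _ b3
      rw [Nat.add_sub_cancel] at b2 b4
      omega
  refine ⟨?_, ?_⟩
  · have := hmono z' (by omega) le_rfl
    omega
  · intro ℓ hℓ hd
    have := poly F hF hpar a (z+1) z' (by omega) hr hpos h4 ℓ hℓ hd
    rw [hs] at this
    omega

end Pool.Agent.Q30.GR
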